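import Mathlib

set_option autoImplicit false

/-!
# A quasigroup of order `17` satisfying `(x y) y = x (x y)`

The operation is `x * y = x + f (y - x)` on `Fin 17` (arithmetic modulo `17`), where `f` is an
explicit permutation of the residues modulo `17`.
-/

namespace Pool.Agent.Results.MP_ab03e0_co.Order17

/-- The permutation `f` of the residues modulo `17`. -/
def f : Fin 17 → Fin 17 :=
  ![0, 4, 8, 5, 16, 14, 10, 6, 15, 2, 11, 7, 3, 1, 12, 9, 13]

/-- The operation `x * y = x + f (y - x)` modulo `17`. -/
def op (x y : Fin 17) : Fin 17 := x + f (y - x)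

theorem left_inj : ∀ a x y : Fin 17, op a x = op a y → x = y := by
  decide +kernel

theorem right_inj : ∀ a x y : Fin 17, op x a = op y a → x = y := by
  decide +kernel

theorem identity : ∀ x y : Fin 17, op (op x y) y = op x (op x y) := by
  decide +kernel

/-- There is a quasigroup on a set with exactly `17` elements satisfying `(x y) y = x (x y)` for
all `x` and `y`. -/
theorem result :
    ∃ m : Fin 17 → Fin 17 → Fin 17,
      (∀ a : Fin 17, Function.Bijective (fun x => m a x)) ∧
      (∀ a : Fin 17, Function.Bijective (fun x => m x a)) ∧
      ∀ x y : Fin 17, m (m x y) y = m x (m x y) :=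
  ⟨op, fun a => Finite.injective_iff_bijective.mp (fun x y h => left_inj a x y h),
    fun a => Finite.injective_iff_bijective.mp (fun x y h => right_inj a x y h), identity⟩

end Pool.Agent.Results.MP_ab03e0_co.Order17
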