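import Mathlib

set_option autoImplicit false

/-!
# Finite quasigroups satisfying `(x y) y = x (x y)` have order `0` or `1` modulo `4`

Let `P (x, y) = (x, x y)`, `Q (x, y) = (x y, y)` and let `W` be the coordinate swap, all
permutations of `S × S`.  The identity gives `Q = W P Q P⁻¹ P⁻¹ P`, so `W` is an even permutation.
-/

namespace Pool.Agent.Results.MP_ab03e0_co.OrderMod4

open Equiv

/-- The sign of the coordinate swap of `S × S` is `(-1) ^ (n (n - 1) / 2)`. -/
theorem sign_swap (S : Type*) [Fintype S] [DecidableEq S] :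
    Perm.sign (Equiv.prodComm S S : Perm (S × S)) =
      (-1) ^ ((Fintype.card S * Fintype.card S - Fintype.card S) / 2) := by
  have h2 : (Equiv.prodComm S S : Perm (S × S)) ^ 2 = 1 := by
    ext p <;> simp [pow_two]
  rw [Perm.sign_of_pow_two_eq_one h2]
  have hfix : Fintype.card (Function.fixedPoints (Equiv.prodComm S S : Perm (S × S))) =
      Fintype.card S := by
    apply Fintype.card_congr
    refine ⟨fun p => p.1.1, fun x => ⟨(x, x), by simp [Function.mem_fixedPoints, Function.IsFixedPt]⟩,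
      ?_, ?_⟩
    · rintro ⟨⟨a, b⟩, h⟩
      have hab : (b, a) = (a, b) := h
      have : b = a := congrArg Prod.fst hab
      subst this
      rfl
    · intro x
      rfl
  rw [hfix, Fintype.card_prod]

/-- Every finite quasigroup satisfying `(x y) y = x (x y)` has order congruent to `0` or `1`
modulo `4`. -/
theorem result {S : Type*} [Fintype S] (m : S → S → S)
    (hl : ∀ a : S, Function.Bijective (fun x => m a x))
    (hr : ∀ a : S, Function.Bijective (fun x => m x a))
    (hid : ∀ x y : S, m (m x y) y = m x (m x y)) :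
    Fintype.card S % 4 = 0 ∨ Fintype.card S % 4 = 1 := by
  classical
  have hPinj : Function.Injective (fun p : S × S => (p.1, m p.1 p.2)) := by
    rintro ⟨a, b⟩ ⟨c, d⟩ h
    simp only [Prod.mk.injEq] at h
    obtain ⟨rfl, h2⟩ := h
    rw [(hl a).1 h2]
  have hQinj : Function.Injective (fun p : S × S => (m p.1 p.2, p.2)) := by
    rintro ⟨a, b⟩ ⟨c, d⟩ h
    simp only [Prod.mk.injEq] at h
    obtain ⟨h2, rfl⟩ := h
    rw [(hr b).1 h2]
  let P : Perm (S × S) := Equiv.ofBijective _ (Finite.injective_iff_bijective.mp hPinj)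
  let Q : Perm (S × S) := Equiv.ofBijective _ (Finite.injective_iff_bijective.mp hQinj)
  let W : Perm (S × S) := Equiv.prodComm S S
  have hP : ∀ a b, P (a, b) = (a, m a b) := fun _ _ => rfl
  have hQ : ∀ a b, Q (a, b) = (m a b, b) := fun _ _ => rfl
  have hW : ∀ a b, W (a, b) = (b, a) := fun _ _ => rfl
  -- the key relation
  have key : W * (P * Q * P⁻¹ * P⁻¹) * P = Q := by
    ext1 p
    obtain ⟨x, y⟩ := p
    have e1 : P⁻¹ (P (x, y)) = (x, y) := by simp
    obtain ⟨t, ht⟩ := (hl x).2 y
    have ht' : m x t = y := ht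
    have e2 : P⁻¹ (x, y) = (x, t) := by
      rw [Perm.inv_eq_iff_eq, hP, ht']
    change W (P (Q (P⁻¹ (P⁻¹ (P (x, y)))))) = Q (x, y)
    rw [e1, e2, hQ, hP, hW, hQ, ← ht', hid x t]
  have hsign : Perm.sign W = 1 := by
    have h1 := congrArg Perm.sign key
    simp only [map_mul, map_inv] at h1
    rcases Int.units_eq_one_or (Perm.sign P) with hp | hp <;>
      rcases Int.units_eq_one_or (Perm.sign Q) with hq | hq <;>
      rcases Int.units_eq_one_or (Perm.sign W) with hw | hw <;>
      simp [hp, hq, hw] at h1 ⊢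
  have hs := sign_swap S
  rw [show (Equiv.prodComm S S : Perm (S × S)) = W from rfl, hsign] at hs
  set n := Fintype.card S with hn
  have heven : Even ((n * n - n) / 2) := by
    by_contra hodd
    rw [Nat.not_even_iff_odd] at hodd
    rw [hodd.neg_one_pow] at hs
    exact absurd hs (by decide)
  obtain ⟨k, hk⟩ := heven
  have h4 : n * n - n = n * (n - 1) := by
    rw [Nat.mul_sub, Nat.mul_one]
  have hdvd : 2 ∣ n * (n - 1) := (Nat.even_mul_pred_self n).two_dvd
  have h5 : n * (n - 1) = 4 * k := by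
    rw [h4] at hk
    omega
  have hcases : n % 4 = 0 ∨ n % 4 = 1 ∨ n % 4 = 2 ∨ n % 4 = 3 := by omega
  rcases hcases with h | h | h | h
  · exact Or.inl h
  · exact Or.inr h
  · exfalso
    obtain ⟨j, hj⟩ : ∃ j, n = 4 * j + 2 := ⟨n / 4, by omega⟩
    rw [hj, show 4 * j + 2 - 1 = 4 * j + 1 by omega] at h5
    ring_nf at h5
    omega
  · exfalso
    obtain ⟨j, hj⟩ : ∃ j, n = 4 * j + 3 := ⟨n / 4, by omega⟩
    rw [hj, show 4 * j + 3 - 1 = 4 * j + 2 by omega] at h5
    ring_nf at h5
    omega

end Pool.Agent.Results.MP_ab03e0_co.OrderMod4
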